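import Pool.Agent.Helper462.Zg.Final
import Pool.Agent.Helper462.Zg.UEA

/-!
# MP_883c56_al: the pure-injective hull of an indecomposable finite-length `U(sl₂)`-module is
isolated in the Ziegler spectrum exactly when the module is finite-dimensional

All definitions (pp formulas, pure embeddings, pure-injective modules, pure-injective hulls, the
Ziegler spectrum and its topology) are in `Pool/Agent/Helper462/Zg/Defs.lean`.
Right `U`-modules are modules over `Uᵐᵒᵖ`.
-/

namespace Pool.Agent.Results.MP_883c56_al.IsolatedIffFiniteDim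

open Zg

universe u

/-- the universal enveloping algebra `U = U(sl₂(k))` -/
abbrev U (k : Type u) [Field k] : Type u :=
  UniversalEnvelopingAlgebra k (LieAlgebra.SpecialLinear.sl (Fin 2) k)

/-- **Theorem.** Let `k` be algebraically closed of characteristic zero and `U = U(sl₂(k))`.
For every indecomposable right `U`-module `M` of finite length the pure-injective hull `H(M)`
exists, is a point of the Ziegler spectrum, is unique up to isomorphism, and is an isolated point
if and only if `M` is finite-dimensional. In particular the assertion of Q1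
is false (for the trivial module), and it is true for all infinite-dimensional `M`. -/
theorem result (k : Type u) [Field k] [IsAlgClosed k] [CharZero k] :
    (∀ (M : Type u) [AddCommGroup M] [Module k M] [Module (U k)ᵐᵒᵖ M]
        [IsScalarTower k (U k)ᵐᵒᵖ M],
      IsFiniteLength (U k)ᵐᵒᵖ M → IsIndecomposable (U k)ᵐᵒᵖ M →
        ∃ (H : IndecPureInjective (U k)ᵐᵒᵖ) (i : M →ₗ[(U k)ᵐᵒᵖ] H.carrier),
          IsPureInjectiveHull i ∧
          (∀ (H' : IndecPureInjective (U k)ᵐᵒᵖ) (i' : M →ₗ[(U k)ᵐᵒᵖ] H'.carrier),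
            IsPureInjectiveHull i' → zgPoint H' = zgPoint H) ∧
          (IsOpen ({zgPoint H} : Set (ZieglerSpectrum (U k)ᵐᵒᵖ)) ↔ FiniteDimensional k M)) ∧
    (¬ ∀ (M : Type u) [AddCommGroup M] [Module (U k)ᵐᵒᵖ M],
      IsFiniteLength (U k)ᵐᵒᵖ M → IsIndecomposable (U k)ᵐᵒᵖ M →
        ∀ (H : IndecPureInjective (U k)ᵐᵒᵖ) (i : M →ₗ[(U k)ᵐᵒᵖ] H.carrier),
          IsPureInjectiveHull i → ¬ IsOpen ({zgPoint H} : Set (ZieglerSpectrum (U k)ᵐᵒᵖ))) := by
  have H₀ := (usl_sl2Gen k).op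
  have hnoeth : IsNoetherianRing (U k)ᵐᵒᵖ := H₀.isNoetherianRing
  have main : ∀ (M : Type u) [AddCommGroup M] [Module k M] [Module (U k)ᵐᵒᵖ M]
        [IsScalarTower k (U k)ᵐᵒᵖ M],
      IsFiniteLength (U k)ᵐᵒᵖ M → IsIndecomposable (U k)ᵐᵒᵖ M →
        ∃ (H : IndecPureInjective (U k)ᵐᵒᵖ) (i : M →ₗ[(U k)ᵐᵒᵖ] H.carrier),
          IsPureInjectiveHull i ∧
          (∀ (H' : IndecPureInjective (U k)ᵐᵒᵖ) (i' : M →ₗ[(U k)ᵐᵒᵖ] H'.carrier),
            IsPureInjectiveHull i' → zgPoint H' = zgPoint H) ∧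
          (IsOpen ({zgPoint H} : Set (ZieglerSpectrum (U k)ᵐᵒᵖ)) ↔ FiniteDimensional k M) := by
    intro M _ _ _ _ hfl hM
    obtain ⟨H, i, hi⟩ := exists_point k M hfl hM
    refine ⟨H, i, hi, fun H' i' hi' => ?_, H₀.isOpen_iff M hfl hM H i hi⟩
    exact (zgPoint_eq_iff H' H).2 (hull_unique i' hi' i hi)
  refine ⟨fun M _ _ _ _ => main M, fun hcon => ?_⟩
  let modk : Module (U k)ᵐᵒᵖ k := Module.compHom k (aug k)
  have hsmul : ∀ (a : (U k)ᵐᵒᵖ) (x : k), a • x = aug k a * x := fun _ _ => rfl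
  have : IsScalarTower k (U k)ᵐᵒᵖ k := ⟨fun c a x => by
    rw [Algebra.smul_def, hsmul, hsmul, map_mul, aug_algebraMap, smul_eq_mul, mul_assoc]⟩
  have hsub : ∀ N : Submodule (U k)ᵐᵒᵖ k, N = ⊥ ∨ N = ⊤ := by
    intro N
    by_cases hN : N = ⊥
    · exact Or.inl hN
    · right
      obtain ⟨x, hx, hx0⟩ := Submodule.exists_mem_ne_zero_of_ne_bot hN
      rw [eq_top_iff]
      rintro y -
      have h1 : algebraMap k (U k)ᵐᵒᵖ (y * x⁻¹) • x ∈ N := N.smul_mem _ hx
      rw [hsmul, aug_algebraMap, mul_assoc, inv_mul_cancel₀ hx0, mul_one] at h1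
      exact h1
  have : Nontrivial (Submodule (U k)ᵐᵒᵖ k) := inferInstance
  have hsimple : IsSimpleModule (U k)ᵐᵒᵖ k := (isSimpleModule_iff _ _).2 ⟨hsub⟩
  have hfl : IsFiniteLength (U k)ᵐᵒᵖ k :=
    isFiniteLength_iff_isNoetherian_isArtinian.2 ⟨inferInstance, inferInstance⟩
  have hind : IsIndecomposable (U k)ᵐᵒᵖ k := by
    refine ⟨inferInstance, fun N₁ N₂ hN => ?_⟩
    rcases hsub N₁ with h | h
    · exact Or.inl h
    · right
      have := hN.disjoint
      rw [h, disjoint_comm, disjoint_top] at this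
      exact this
  obtain ⟨H, i, hi, -, hiff⟩ := main k hfl hind
  exact hcon k hfl hind H i hi (hiff.2 inferInstance)

end Pool.Agent.Results.MP_883c56_al.IsolatedIffFiniteDim
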